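import Pool.Agent.H55.CU.Targets

/-!
# MP_65efe8_pr, board cou, row UNR: real masses
-/

set_option autoImplicit false

open MeasureTheory ProbabilityTheory Filter Topology
open scoped ENNReal
open Pool.Agent.H95 Pool.Agent.H95.Cop Pool.Agent.H96.Cop

namespace Pool.Agent.H65.CU

open Pool.Agent.H55.CU

theorem Un_ofReal (K : PMF ℕ) (k : ℕ) (b : ℝ) (s : ℕ) :
    Un (kh K k (ENNReal.ofReal (Real.exp b))) s = ENNReal.ofReal (uu (khr K k b) s) := by
  induction s using Nat.strong_induction_on with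
  | _ s ih =>
    cases s with
    | zero => rw [Un_zero, uu_zero, ENNReal.ofReal_one]
    | succ n =>
      rw [Un_succ, uu_succ, ENNReal.ofReal_sum_of_nonneg
        (fun j _ => mul_nonneg (khr_nonneg _ _ _ _) (uu_nonneg _ (khr_nonneg _ _ _) _))]
      refine Finset.sum_congr rfl fun j _ => ?_
      rw [ENNReal.ofReal_mul (khr_nonneg _ _ _ _), kh_eq, ih (n - j) (by omega)]

theorem pf_UNR : T_UNR := by
  intro K k b a
  have h0 : ∀ e r : ℕ, 0 ≤ (if e ≤ a * k + r then uu (khr K k b) (a * k + r - e) else 0) := by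
    intro e r
    split_ifs
    · exact uu_nonneg _ (khr_nonneg _ _ _) _
    · exact le_refl _
  unfold Vn VR
  rw [ENNReal.ofReal_sum_of_nonneg (fun e _ => Finset.sum_nonneg fun r _ => h0 e r)]
  refine Finset.sum_congr rfl fun e _ => ?_
  rw [ENNReal.ofReal_sum_of_nonneg (fun r _ => h0 e r)]
  refine Finset.sum_congr rfl fun r _ => ?_
  split_ifs
  · exact Un_ofReal K k b _
  · rw [ENNReal.ofReal_zero]

end Pool.Agent.H65.CU
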