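import Pool.Agent.H55.CU.Targets

/-!
# MP_65efe8_pr, board cou, row FSB: the sum over the long excursions below the interface
-/

set_option autoImplicit false

open MeasureTheory ProbabilityTheory Filter Topology
open scoped ENNReal
open Pool.Agent.H95 Pool.Agent.H95.Cop Pool.Agent.H96.Cop

namespace Pool.Agent.H65.CU

open Pool.Agent.H55.CU

theorem pf_FSB (hGSC : T_GSC) (hTHP : T_THP) : T_FSB := by
  intro K ν _ α c n0 k S hα hα50 hc hKB hk hn0 hS hMo
  have hαq : α ≤ 1 / 4 := hα50.trans (by norm_num)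
  obtain ⟨hθh, hθ1, -, hθe, -⟩ := hTHP α S hα hαq
  set θ := th α S with hθ
  have hθ0 : 0 < θ := by linarith
  have hGS := hGSC K α c n0 hα hc hKB
  have h2S : (2 : ℝ) ^ 12 ≤ 2 ^ S := by
    have h1 : (1 / 2 ^ 50 : ℝ) * 2 ^ 12 ≤ α * 2 ^ S := by
      refine le_trans (le_of_eq ?_) hS
      norm_num
    by_contra hcon
    have h2 : (2 : ℝ) ^ S < 2 ^ 12 := not_le.1 hcon
    have h3 : α * 2 ^ S < 1 / 2 ^ 50 * 2 ^ 12 := by
      calc α * 2 ^ S < α * 2 ^ 12 := mul_lt_mul_of_pos_left h2 hα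
        _ ≤ 1 / 2 ^ 50 * 2 ^ 12 := mul_le_mul_of_nonneg_right hα50 (by positivity)
    linarith
  have h2Sn : 2 ^ 12 ≤ 2 ^ S := by exact_mod_cast h2S
  have hkR : (1 : ℝ) ≤ k := by exact_mod_cast hk
  have hZ : 0 < ZZ α c k := by
    unfold ZZ
    positivity
  have hZθ : 0 < ZZ α c k ^ θ := Real.rpow_pos_of_pos hZ _
  refine ⟨?_, ?_⟩
  · intro j m hj hm1 hm2 hm3
    have hjS : ¬ j < 2 ^ S := by
      intro h
      have h1 : (j + 1) * k ≤ 2 ^ S * k := Nat.mul_le_mul_right k h
      have h2 : 2 ^ S * k = k * 2 ^ S := Nat.mul_comm _ _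
      omega
    unfold GS
    rw [if_neg hjS]
    have hj2 : 1 ≤ j - 1 := by omega
    have hM : k ≤ (j - 1) * k := Nat.le_mul_of_pos_left k (by omega)
    exact (hGS.1 ((j - 1) * k) m (hk.trans hM) (hn0.trans hM) hm2).2
  · intro n
    set y : ℝ := 2 ^ 40 * α with hy
    have hy0 : 0 < y := by positivity
    have hy1 : y ≤ 1 := by
      rw [hy]
      calc (2 : ℝ) ^ 40 * α ≤ 2 ^ 40 * (1 / 2 ^ 50) := mul_le_mul_of_nonneg_left hα50 (by positivity)
        _ ≤ 1 := by norm_num
    set q : ℝ := Real.exp (-y) with hq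
    have hq0 : 0 < q := Real.exp_pos _
    have hq1 : q ≤ 1 / (1 + y) := by
      rw [hq, Real.exp_neg, one_div]
      have h1 : 1 + y ≤ Real.exp y := by
        have := Real.add_one_le_exp y
        linarith
      exact inv_anti₀ (by positivity) h1
    have h1q : y / 2 ≤ 1 - q := by
      have h1 : 1 / (1 + y) ≤ 1 - y / 2 := by
        rw [div_le_iff₀ (by positivity)]
        nlinarith
      linarith
    have hterm : ∀ j ∈ Finset.Ico 1 n, GS α c k S j ^ θ * Mo ν θ ^ ((j - 1) * k) ≤
        ENNReal.ofReal (2 / 2 ^ S / ZZ α c k ^ θ * q ^ (j - 1)) := by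
      intro j hj
      by_cases hjS : j < 2 ^ S
      · unfold GS
        rw [if_pos hjS, ENNReal.zero_rpow_of_pos hθ0, zero_mul]
        exact zero_le
      · have hj2 : 1 ≤ j - 1 := by omega
        have hjr : (0 : ℝ) < ((j - 1 : ℕ) : ℝ) := by exact_mod_cast hj2
        have h1 : GS α c k S j ^ θ ≤ ENNReal.ofReal (2 / 2 ^ S / ZZ α c k ^ θ) := by
          unfold GS
          rw [if_neg hjS, ENNReal.ofReal_rpow_of_nonneg (by positivity) hθ0.le]
          refine ENNReal.ofReal_le_ofReal ?_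
          have h2 := hGS.2 k (j - 1) θ hk hj2 hθ0 (by
            rw [hθe]
            have : 0 ≤ α / 2 ^ S := by positivity
            linarith)
          rw [Nat.mul_comm k (j - 1)] at h2
          refine h2.trans ?_
          refine div_le_div_of_nonneg_right ?_ hZθ.le
          rw [div_le_div_iff₀ hjr (by positivity), one_mul]
          have h3 : 2 ^ S ≤ 2 * (j - 1) := by omega
          exact_mod_cast h3
        have h4 : Mo ν θ ^ ((j - 1) * k) ≤ ENNReal.ofReal (q ^ (j - 1)) := by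
          rw [Nat.mul_comm, pow_mul, ENNReal.ofReal_pow hq0.le]
          exact pow_le_pow_left₀ zero_le hMo _
        rw [ENNReal.ofReal_mul (by positivity)]
        exact mul_le_mul' h1 h4
    refine (Finset.sum_le_sum hterm).trans ?_
    rw [← ENNReal.ofReal_sum_of_nonneg (fun j _ => by positivity)]
    refine ENNReal.ofReal_le_ofReal ?_
    rw [← Finset.mul_sum]
    have hgeo : ∑ j ∈ Finset.Ico 1 n, q ^ (j - 1) ≤ 2 / y := by
      rw [Finset.sum_Ico_eq_sum_range]
      have h1 : ∑ i ∈ Finset.range (n - 1), q ^ (1 + i - 1) =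
          ∑ i ∈ Finset.range (n - 1), q ^ i := by
        refine Finset.sum_congr rfl fun i _ => ?_
        rw [Nat.add_sub_cancel_left]
      rw [h1]
      have h2 : (∑ i ∈ Finset.range (n - 1), q ^ i) * (1 - q) ≤ 1 := by
        have h3 := geom_sum_mul q (n - 1)
        have h4 : 0 ≤ q ^ (n - 1) := by positivity
        have h5 : (∑ i ∈ Finset.range (n - 1), q ^ i) * (1 - q) =
            -((∑ i ∈ Finset.range (n - 1), q ^ i) * (q - 1)) := by ring
        rw [h5, h3]
        linarith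
      have h0 : 0 ≤ ∑ i ∈ Finset.range (n - 1), q ^ i := Finset.sum_nonneg fun i _ => by positivity
      rw [le_div_iff₀ hy0]
      have h6 := mul_le_mul_of_nonneg_left h1q h0
      linarith
    have hcoef : 0 ≤ 2 / 2 ^ S / ZZ α c k ^ θ := by positivity
    refine (mul_le_mul_of_nonneg_left hgeo hcoef).trans ?_
    have h7 : 2 / 2 ^ S / ZZ α c k ^ θ * (2 / y) = 4 / (2 ^ S * y) / ZZ α c k ^ θ := by
      field_simp
      norm_num
    rw [h7]
    refine div_le_div_of_nonneg_right ?_ hZθ.le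
    rw [div_le_one (by positivity), hy]
    have h8 : (2 : ℝ) ^ S * (2 ^ 40 * α) = 2 ^ 40 * (α * 2 ^ S) := by ring
    rw [h8]
    have h9 := mul_le_mul_of_nonneg_left hS (by positivity : (0 : ℝ) ≤ 2 ^ 40)
    refine le_trans (le_of_eq ?_) h9
    norm_num

end Pool.Agent.H65.CU
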